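import Pool.Agent.H95.CG.Targets

/-!
# Module GB: the archimedean factors are bounded on `[1, 2]`, uniformly in the degree
-/

set_option autoImplicit false

open NumberField NumberField.InfinitePlace NumberField.Units
  NumberField.Units.dirichletUnitTheorem MeasureTheory Set Filter Complex
open scoped nonZeroDivisors ENNReal

namespace Pool.Agent.H6.CG

open Pool.Agent.H95.CG Pool.Agent.H25.HK

/-- the real gamma factor is bounded on `[1, 3]` -/
theorem gammaR_bdd : ∃ B : ℝ, 1 ≤ B ∧ ∀ s : ℝ, s ∈ Icc (1 : ℝ) 3 → ‖Gammaℝ (s : ℂ)‖ ≤ B := by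
  have hc : ContinuousOn (fun s : ℝ => Gammaℝ (s : ℂ)) (Icc (1 : ℝ) 3) := by
    have h1 : Continuous (fun s : ℝ => (Gammaℝ (s : ℂ))⁻¹) :=
      differentiable_Gammaℝ_inv.continuous.comp Complex.continuous_ofReal
    have h2 : ContinuousOn (fun s : ℝ => ((Gammaℝ (s : ℂ))⁻¹)⁻¹) (Icc (1 : ℝ) 3) := by
      apply h1.continuousOn.inv₀
      intro s hs
      apply inv_ne_zero
      apply Gammaℝ_ne_zero_of_re_pos
      rw [Complex.ofReal_re]
      linarith [hs.1]
    simpa using h2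
  obtain ⟨B, hB⟩ := isCompact_Icc.exists_bound_of_continuousOn hc
  exact ⟨max B 1, le_max_right _ _, fun s hs => (hB s hs).trans (le_max_left _ _)⟩

/-- Module GB. -/
theorem pf_gb : T_GB := by
  intro n
  obtain ⟨B, hB1, hB⟩ := gammaR_bdd
  have hB0 : (0 : ℝ) ≤ B := by linarith
  refine ⟨B ^ (2 * n), by positivity, ?_⟩
  intro K _ _ hn s h1 h2
  have hR : ‖Gammaℝ (s : ℂ)‖ ≤ B := hB s ⟨h1, by linarith⟩
  have hC : ‖Gammaℂ (s : ℂ)‖ ≤ B ^ 2 := by
    rw [← Gammaℝ_mul_Gammaℝ_add_one, norm_mul]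
    have h3 : ‖Gammaℝ ((s : ℂ) + 1)‖ ≤ B := by
      have := hB (s + 1) ⟨by linarith, by linarith⟩
      simpa using this
    calc ‖Gammaℝ (s : ℂ)‖ * ‖Gammaℝ ((s : ℂ) + 1)‖ ≤ B * B :=
          mul_le_mul hR h3 (norm_nonneg _) hB0
      _ = B ^ 2 := by ring
  have hcard : nrRealPlaces K + 2 * nrComplexPlaces K = n := by
    rw [card_add_two_mul_card_eq_rank, hn]
  have hgr : gr K s ≤ ‖gK K (s : ℂ)‖ := by
    unfold gr
    exact Complex.re_le_norm _
  refine hgr.trans ?_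
  unfold gK
  rw [norm_mul, norm_pow, norm_pow]
  calc ‖Gammaℝ (s : ℂ)‖ ^ nrRealPlaces K * ‖Gammaℂ (s : ℂ)‖ ^ nrComplexPlaces K
      ≤ B ^ nrRealPlaces K * (B ^ 2) ^ nrComplexPlaces K :=
        mul_le_mul (pow_le_pow_left₀ (norm_nonneg _) hR _)
          (pow_le_pow_left₀ (norm_nonneg _) hC _) (pow_nonneg (norm_nonneg _) _)
          (pow_nonneg hB0 _)
    _ = B ^ (nrRealPlaces K + 2 * nrComplexPlaces K) := by
        rw [← pow_mul, ← pow_add]
    _ = B ^ n := by rw [hcard]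
    _ ≤ B ^ (2 * n) := pow_le_pow_right₀ hB1 (by omega)

end Pool.Agent.H6.CG
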